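import Mathlib

set_option autoImplicit false

namespace Pool.Agent.Helper793.ABCD

/-- `n` is solvable: `n = (a+b)(c+d)`, `abcd = 1` with positive rationals. -/
def Solvable (n : ℕ) : Prop :=
  ∃ a b c d : ℚ, 0 < a ∧ 0 < b ∧ 0 < c ∧ 0 < d ∧ (n : ℚ) = (a + b) * (c + d) ∧ a * b * c * d = 1

/-- the integral data attached to a solution -/
structure Data (n : ℕ) where
  α : ℕ
  β : ℕ
  γ : ℕ
  δ : ℕ
  A : ℕ
  B : ℕ
  hα : 0 < α
  hβ : 0 < β
  hγ : 0 < γ
  hδ : 0 < δ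
  hn : n = A * B
  h1 : α ^ 2 + δ ^ 2 = A * (β * γ)
  h2 : β ^ 2 + γ ^ 2 = B * (α * δ)
  cαβ : Nat.Coprime α β
  cαγ : Nat.Coprime α γ
  cαδ : Nat.Coprime α δ
  cβγ : Nat.Coprime β γ
  cβδ : Nat.Coprime β δ
  cγδ : Nat.Coprime γ δ

theorem coprime_mul_sq_add_sq {p q : ℕ} (h : Nat.Coprime p q) :
    Nat.Coprime (p * q) (p ^ 2 + q ^ 2) := by
  apply Nat.Coprime.mul_left
  · have : Nat.Coprime p (q ^ 2) := Nat.Coprime.pow_right 2 h
    have h2 : Nat.Coprime p (q ^ 2 + p * p) := by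
      rw [Nat.coprime_add_mul_left_right]; exact this
    rw [show p ^ 2 + q ^ 2 = q ^ 2 + p * p by ring]; exact h2
  · have : Nat.Coprime q (p ^ 2) := Nat.Coprime.pow_right 2 h.symm
    have h2 : Nat.Coprime q (p ^ 2 + q * q) := by
      rw [Nat.coprime_add_mul_left_right]; exact this
    rw [show p ^ 2 + q ^ 2 = p ^ 2 + q * q by ring]; exact h2

theorem step1 {n : ℕ} (h : Solvable n) : ∃ p q r s : ℕ, 0 < p ∧ 0 < q ∧ 0 < r ∧ 0 < s ∧
    Nat.Coprime p q ∧ Nat.Coprime r s ∧ p * q = r * s ∧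
    n * (p * q) = p ^ 2 + q ^ 2 + r ^ 2 + s ^ 2 := by
  obtain ⟨a, b, c, d, ha, hb, hc, hd, hn, h1⟩ := h
  set x : ℚ := a * c with hx
  set y : ℚ := a * d with hy
  have hx0 : 0 < x := mul_pos ha hc
  have hy0 : 0 < y := mul_pos ha hd
  have hxi : x⁻¹ = b * d := by
    apply inv_eq_of_mul_eq_one_left
    rw [hx]; linarith
  have hyi : y⁻¹ = b * c := by
    apply inv_eq_of_mul_eq_one_left
    rw [hy]; linarith
  have hnx : (n : ℚ) = x + x⁻¹ + y + y⁻¹ := by
    rw [hxi, hyi, hn, hx, hy]; ring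
  -- numerators and denominators
  obtain ⟨p, hp⟩ : ∃ p : ℕ, x.num = p := ⟨x.num.toNat, by
    rw [Int.toNat_of_nonneg (Rat.num_nonneg.2 hx0.le)]⟩
  obtain ⟨r, hr⟩ : ∃ r : ℕ, y.num = r := ⟨y.num.toNat, by
    rw [Int.toNat_of_nonneg (Rat.num_nonneg.2 hy0.le)]⟩
  have hp0 : 0 < p := by
    have := Rat.num_pos.2 hx0
    rw [hp] at this; exact_mod_cast this
  have hr0 : 0 < r := by
    have := Rat.num_pos.2 hy0
    rw [hr] at this; exact_mod_cast this
  have hq0 : 0 < x.den := x.den_pos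
  have hs0 : 0 < y.den := y.den_pos
  have hpq : Nat.Coprime p x.den := by
    have := x.reduced
    rw [hp] at this; simpa using this
  have hrs : Nat.Coprime r y.den := by
    have := y.reduced
    rw [hr] at this; simpa using this
  have hxe : x = (p : ℚ) / x.den := by
    have h9 := Rat.num_div_den x
    rw [hp] at h9
    rw [Int.cast_natCast] at h9
    exact h9.symm
  have hye : y = (r : ℚ) / y.den := by
    have h9 := Rat.num_div_den y
    rw [hr] at h9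
    rw [Int.cast_natCast] at h9
    exact h9.symm
  set q := x.den with hq
  set s := y.den with hs
  have hpQ : (p : ℚ) ≠ 0 := by exact_mod_cast hp0.ne'
  have hqQ : (q : ℚ) ≠ 0 := by exact_mod_cast hq0.ne'
  have hrQ : (r : ℚ) ≠ 0 := by exact_mod_cast hr0.ne'
  have hsQ : (s : ℚ) ≠ 0 := by exact_mod_cast hs0.ne'
  have key : (n : ℚ) * (p * q * (r * s)) = (p ^ 2 + q ^ 2) * (r * s) + (r ^ 2 + s ^ 2) * (p * q) := by
    rw [hnx, hxe, hye]
    field_simp
    ring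
  have keyN : n * (p * q * (r * s)) = (p ^ 2 + q ^ 2) * (r * s) + (r ^ 2 + s ^ 2) * (p * q) := by
    exact_mod_cast key
  have d1 : p * q ∣ r * s := by
    have h3 : p * q ∣ (p ^ 2 + q ^ 2) * (r * s) := by
      have h4 : p * q ∣ (p ^ 2 + q ^ 2) * (r * s) + (r ^ 2 + s ^ 2) * (p * q) := by
        rw [← keyN]
        exact ⟨n * (r * s), by ring⟩
      exact (Nat.dvd_add_left (Dvd.intro_left _ rfl)).1 h4
    exact (coprime_mul_sq_add_sq hpq).dvd_of_dvd_mul_left h3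
  have d2 : r * s ∣ p * q := by
    have h3 : r * s ∣ (r ^ 2 + s ^ 2) * (p * q) := by
      have h4 : r * s ∣ (p ^ 2 + q ^ 2) * (r * s) + (r ^ 2 + s ^ 2) * (p * q) := by
        rw [← keyN]
        exact ⟨n * (p * q), by ring⟩
      exact (Nat.dvd_add_right (Dvd.intro_left _ rfl)).1 h4
    exact (coprime_mul_sq_add_sq hrs).dvd_of_dvd_mul_left h3
  have he : p * q = r * s := Nat.dvd_antisymm d1 d2
  refine ⟨p, q, r, s, hp0, hq0, hr0, hs0, hpq, hrs, he, ?_⟩
  have hpos : 0 < p * q := Nat.mul_pos hp0 hq0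
  have : (n * (p * q)) * (p * q) = (p ^ 2 + q ^ 2 + r ^ 2 + s ^ 2) * (p * q) := by
    calc (n * (p * q)) * (p * q) = n * (p * q * (r * s)) := by rw [← he]; ring
      _ = _ := keyN
      _ = (p ^ 2 + q ^ 2 + r ^ 2 + s ^ 2) * (p * q) := by rw [← he]; ring
  exact Nat.eq_of_mul_eq_mul_right hpos this

theorem step2 {n : ℕ} (h : Solvable n) : Nonempty (Data n) := by
  obtain ⟨p, q, r, s, hp, hq, hr, hs, hpq, hrs, he, hn⟩ := step1 h
  -- four number lemma
  obtain ⟨α, β, γ, δ, hα, hβ, hγ, hδ, e1, e2, e3, e4⟩ : ∃ α β γ δ : ℕ, 0 < α ∧ 0 < β ∧ 0 < γ ∧ 0 < δ ∧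
      p = α * β ∧ q = γ * δ ∧ r = α * γ ∧ s = β * δ := by
    have hg : 0 < Nat.gcd p r := Nat.gcd_pos_of_pos_left r hp
    obtain ⟨β, hβ⟩ := Nat.gcd_dvd_left p r
    obtain ⟨γ, hγ⟩ := Nat.gcd_dvd_right p r
    have hcop : Nat.Coprime β γ := by
      have := Nat.coprime_div_gcd_div_gcd hg
      rwa [show p / Nat.gcd p r = β from Nat.div_eq_of_eq_mul_right hg hβ,
        show r / Nat.gcd p r = γ from Nat.div_eq_of_eq_mul_right hg hγ] at this
    have hβ0 : 0 < β := Nat.pos_of_ne_zero (by rintro rfl; simp at hβ; omega)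
    have hγ0 : 0 < γ := Nat.pos_of_ne_zero (by rintro rfl; simp at hγ; omega)
    have h5 : β * q = γ * s := by
      have : Nat.gcd p r * (β * q) = Nat.gcd p r * (γ * s) := by
        calc Nat.gcd p r * (β * q) = (Nat.gcd p r * β) * q := by ring
          _ = p * q := by rw [← hβ]
          _ = r * s := he
          _ = (Nat.gcd p r * γ) * s := by rw [← hγ]
          _ = _ := by ring
      exact Nat.eq_of_mul_eq_mul_left hg this
    have h6 : β ∣ s := hcop.dvd_of_dvd_mul_left (Dvd.intro _ h5)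
    obtain ⟨δ, hδ⟩ := h6
    have h7 : q = γ * δ := by
      have : β * q = β * (γ * δ) := by rw [h5, hδ]; ring
      exact Nat.eq_of_mul_eq_mul_left hβ0 this
    have hδ0 : 0 < δ := Nat.pos_of_ne_zero (by rintro rfl; simp at hδ; omega)
    exact ⟨Nat.gcd p r, β, γ, δ, hg, hβ0, hγ0, hδ0, hβ, h7, hγ, hδ⟩
  have cαγ : Nat.Coprime α γ :=
    Nat.Coprime.coprime_mul_right (Nat.Coprime.coprime_mul_right_right (by rw [← e1, ← e2]; exact hpq))
  have cαδ : Nat.Coprime α δ :=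
    Nat.Coprime.coprime_mul_right (Nat.Coprime.coprime_mul_left_right (by rw [← e1, ← e2]; exact hpq))
  have cβγ : Nat.Coprime β γ :=
    Nat.Coprime.coprime_mul_left (Nat.Coprime.coprime_mul_right_right (by rw [← e1, ← e2]; exact hpq))
  have cβδ : Nat.Coprime β δ :=
    Nat.Coprime.coprime_mul_left (Nat.Coprime.coprime_mul_left_right (by rw [← e1, ← e2]; exact hpq))
  have cαβ : Nat.Coprime α β :=
    Nat.Coprime.coprime_mul_right (Nat.Coprime.coprime_mul_right_right (by rw [← e3, ← e4]; exact hrs))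
  have cγδ : Nat.Coprime γ δ :=
    Nat.Coprime.coprime_mul_left (Nat.Coprime.coprime_mul_left_right (by rw [← e3, ← e4]; exact hrs))
  have key : n * (α * β * (γ * δ)) = (α ^ 2 + δ ^ 2) * (β ^ 2 + γ ^ 2) := by
    rw [← e1, ← e2, hn, e1, e2, e3, e4]; ring
  have dA : β * γ ∣ α ^ 2 + δ ^ 2 := by
    have h8 : β * γ ∣ (α ^ 2 + δ ^ 2) * (β ^ 2 + γ ^ 2) := by
      rw [← key]; exact ⟨n * (α * δ), by ring⟩
    exact (coprime_mul_sq_add_sq cβγ).dvd_of_dvd_mul_right h8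
  have dB : α * δ ∣ β ^ 2 + γ ^ 2 := by
    have h8 : α * δ ∣ (α ^ 2 + δ ^ 2) * (β ^ 2 + γ ^ 2) := by
      rw [← key]; exact ⟨n * (β * γ), by ring⟩
    exact (coprime_mul_sq_add_sq cαδ).dvd_of_dvd_mul_left h8
  obtain ⟨A, hA⟩ := dA
  obtain ⟨B, hB⟩ := dB
  have hAB : n = A * B := by
    have hpos : 0 < α * β * (γ * δ) := by positivity
    have : n * (α * β * (γ * δ)) = (A * B) * (α * β * (γ * δ)) := by
      rw [key, hA, hB]; ring
    exact Nat.eq_of_mul_eq_mul_right hpos this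
  exact ⟨⟨α, β, γ, δ, A, B, hα, hβ, hγ, hδ, hAB, by rw [hA]; ring, by rw [hB]; ring,
    cαβ, cαγ, cαδ, cβγ, cβδ, cγδ⟩⟩

end Pool.Agent.Helper793.ABCD
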