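import Pool.Agent.Helper793.ABCD.Nec

set_option autoImplicit false

namespace Pool.Agent.Helper793.ABCD

variable {n : ℕ}

theorem Data.mod_nine (D : Data n) : n % 9 = 4 ∨ n % 9 = 5 := by
  have h3 : Nat.Prime 3 := Nat.prime_three
  have : Fact (Nat.Prime 3) := ⟨h3⟩
  have hn3 : ¬ 3 ∣ n := fun h => D.no3 h3 h (by norm_num)
  have h4 := D.four_le
  have aux : ∀ N : ℕ, 3 ∣ N → Even (padicValNat 3 N) → 9 ∣ N := by
    intro N hd he
    rcases Nat.eq_zero_or_pos N with rfl | hN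
    · simp
    have h1 : 1 ≤ padicValNat 3 N := one_le_padicValNat_of_dvd hN.ne' hd
    have h2 : 2 ≤ padicValNat 3 N := by
      obtain ⟨k, hk⟩ := he
      omega
    have h3 := (pow_dvd_pow 3 h2).trans (pow_padicValNat_dvd (p := 3) (n := N))
    simpa using h3
  have hm : n % 3 = 1 ∨ n % 3 = 2 := by omega
  rcases hm with hm | hm
  · left
    have h9 := aux (n - 4) (by omega) (val_even h3 (by norm_num) D.sq_minus)
    omega
  · right
    have h9 := aux (n + 4) (by omega) (val_even h3 (by norm_num) D.sq_plus)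
    omega

theorem parity_aux {α β γ δ A B : ℕ} (ha : Even α) (hd : Odd δ) (hb : Odd β) (hc : Odd γ)
    (h1 : α ^ 2 + δ ^ 2 = A * (β * γ)) (h2 : β ^ 2 + γ ^ 2 = B * (α * δ)) : Odd A ∧ Odd B := by
  constructor
  · have : Odd (A * (β * γ)) := by
      rw [← h1]
      exact Even.add_odd (ha.pow_of_ne_zero two_ne_zero) hd.pow
    exact (Nat.odd_mul.1 this).1
  · by_contra hB
    rw [Nat.not_odd_iff_even] at hB
    obtain ⟨a, rfl⟩ := ha
    obtain ⟨b, rfl⟩ := hB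
    obtain ⟨x, rfl⟩ := hb
    obtain ⟨y, rfl⟩ := hc
    have h3 : (2 * x + 1) ^ 2 + (2 * y + 1) ^ 2 = 4 * (x ^ 2 + x + y ^ 2 + y) + 2 := by ring
    have h4 : (b + b) * ((a + a) * δ) = 4 * (b * a * δ) := by ring
    rw [h3, h4] at h2
    omega

theorem zmod4_aux : ∀ B u v u' v' : ZMod 4, B * u ^ 2 + v ^ 2 = 2 → B * u' ^ 2 - v' ^ 2 = 2 →
    2 * B = 2 → 2 * (u + u') = 2 → 2 * (v + v') = 2 → False := by decide

theorem Data.mod_of_all_odd (D : Data n) (hα : Odd D.α) (hβ : Odd D.β) (hγ : Odd D.γ)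
    (hδ : Odd D.δ) : n % 32 = 4 := by
  obtain ⟨a, ha⟩ := hα
  obtain ⟨b, hb⟩ := hβ
  obtain ⟨c, hc⟩ := hγ
  obtain ⟨d, hd⟩ := hδ
  have h1 := D.h1
  have h2 := D.h2
  have hn := D.hn
  -- A and B are twice odd numbers
  have aux : ∀ x y P z w : ℕ, (2 * x + 1) ^ 2 + (2 * y + 1) ^ 2 = P * ((2 * z + 1) * (2 * w + 1)) →
      ∃ Q, P = 2 * Q ∧ Q % 2 = 1 := by
    intro x y P z w h
    have e1 : (2 * x + 1) ^ 2 + (2 * y + 1) ^ 2 = 4 * (x ^ 2 + x + y ^ 2 + y) + 2 := by ring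
    have e2 : P * ((2 * z + 1) * (2 * w + 1)) = 4 * (P * z * w) + 2 * (P * (z + w)) + P := by ring
    rw [e1, e2] at h
    have hP : P % 2 = 0 := by omega
    obtain ⟨Q, hQ⟩ : ∃ Q, P = 2 * Q := ⟨P / 2, by omega⟩
    refine ⟨Q, hQ, ?_⟩
    subst hQ
    have e3 : 2 * (2 * Q * (z + w)) = 4 * (Q * (z + w)) := by ring
    rw [e3] at h
    omega
  obtain ⟨A', hA, hA'⟩ := aux a d D.A b c (by rw [← ha, ← hd, ← hb, ← hc]; exact h1)
  obtain ⟨B', hB, hB'⟩ := aux b c D.B a d (by rw [← ha, ← hd, ← hb, ← hc]; exact h2)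
  have hnm : n = 4 * (A' * B') := by rw [hn, hA, hB]; ring
  have hmodd : Odd (A' * B') := Nat.odd_mul.2 ⟨Nat.odd_iff.2 hA', Nat.odd_iff.2 hB'⟩
  have hm4 : (A' * B') % 4 = 1 := one_mod_four hmodd (fun p hp hdv => D.no3 hp (by
    rw [hnm]; exact hdv.mul_left 4))
  set m := A' * B' with hm
  have hm8 : m % 8 = 1 ∨ m % 8 = 5 := by omega
  rcases hm8 with hm8 | hm8
  · omega
  exfalso
  obtain ⟨k, hk⟩ : ∃ k, m = 8 * k + 5 := ⟨m / 8, by omega⟩
  -- integer equations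
  have z1 : ((D.α : ℤ) ^ 2 + D.δ ^ 2) = D.A * (D.β * D.γ) := by exact_mod_cast h1
  have z2 : ((D.β : ℤ) ^ 2 + D.γ ^ 2) = D.B * (D.α * D.δ) := by exact_mod_cast h2
  have zA : (D.A : ℤ) = 2 * A' := by exact_mod_cast hA
  have zB : (D.B : ℤ) = 2 * B' := by exact_mod_cast hB
  have zm : (A' : ℤ) * B' = 8 * k + 5 := by exact_mod_cast (hm ▸ hk)
  have zα : (D.α : ℤ) = 2 * a + 1 := by exact_mod_cast ha
  have zβ : (D.β : ℤ) = 2 * b + 1 := by exact_mod_cast hb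
  have zγ : (D.γ : ℤ) = 2 * c + 1 := by exact_mod_cast hc
  have zδ : (D.δ : ℤ) = 2 * d + 1 := by exact_mod_cast hd
  rw [zA, zα, zβ, zγ, zδ] at z1
  rw [zB, zα, zβ, zγ, zδ] at z2
  have E1 : (4 * (k : ℤ) + 2) * ((2 * b + 1) * (2 * c + 1)) =
      B' * ((a : ℤ) - d) ^ 2 + ((b : ℤ) - c) ^ 2 := by
    have h4 : (4 : ℤ) * ((4 * (k : ℤ) + 2) * ((2 * b + 1) * (2 * c + 1))) =
        4 * (B' * ((a : ℤ) - d) ^ 2 + ((b : ℤ) - c) ^ 2) := by
      linear_combination (-(2 : ℤ) * ((2 * b + 1) * (2 * c + 1))) * zm - (B' : ℤ) * z1 - z2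
    linarith
  have E2 : (4 * (k : ℤ) + 2) * ((2 * b + 1) * (2 * c + 1)) =
      B' * ((a : ℤ) + d + 1) ^ 2 - ((b : ℤ) + c + 1) ^ 2 := by
    have h4 : (4 : ℤ) * ((4 * (k : ℤ) + 2) * ((2 * b + 1) * (2 * c + 1))) =
        4 * (B' * ((a : ℤ) + d + 1) ^ 2 - ((b : ℤ) + c + 1) ^ 2) := by
      linear_combination (-(2 : ℤ) * ((2 * b + 1) * (2 * c + 1))) * zm - (B' : ℤ) * z1 + z2
    linarith
  have four : (4 : ZMod 4) = 0 := by decide
  have F0 : ((4 * (k : ZMod 4) + 2) * ((2 * b + 1) * (2 * c + 1))) = 2 := by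
    linear_combination ((k : ZMod 4) * ((2 * b + 1) * (2 * c + 1)) + 2 * b * c + b + c) * four
  have F1 : (B' : ZMod 4) * ((a : ZMod 4) - d) ^ 2 + ((b : ZMod 4) - c) ^ 2 = 2 := by
    have := congrArg (Int.cast (R := ZMod 4)) E1
    push_cast at this
    rw [← this]; exact F0
  have F2 : (B' : ZMod 4) * ((a : ZMod 4) + d + 1) ^ 2 - ((b : ZMod 4) + c + 1) ^ 2 = 2 := by
    have := congrArg (Int.cast (R := ZMod 4)) E2
    push_cast at this
    rw [← this]; exact F0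
  obtain ⟨e, he⟩ : ∃ e, B' = 2 * e + 1 := ⟨B' / 2, by omega⟩
  refine zmod4_aux _ _ _ _ _ F1 F2 ?_ ?_ ?_
  · rw [he]; push_cast; linear_combination (e : ZMod 4) * four
  · linear_combination (a : ZMod 4) * four
  · linear_combination (b : ZMod 4) * four

end Pool.Agent.Helper793.ABCD
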