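import Pool.Agent.Helper793.ABCD.Basic

set_option autoImplicit false

namespace Pool.Agent.Helper793.ABCD

theorem prime_mod {p x y : ℕ} (hp : p.Prime) (hc : Nat.Coprime x y) (h : p ∣ x ^ 2 + y ^ 2) :
    p % 4 ≠ 3 := by
  have : Fact p.Prime := ⟨hp⟩
  rw [← ZMod.exists_sq_eq_neg_one_iff]
  have hy : (y : ZMod p) ≠ 0 := by
    intro h0
    have h1 : p ∣ y := (ZMod.natCast_eq_zero_iff y p).1 h0
    have h2 : p ∣ x ^ 2 := by
      have h3 : p ∣ y ^ 2 := dvd_pow h1 two_ne_zero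
      exact (Nat.dvd_add_left h3).1 h
    have h4 : p ∣ x := hp.dvd_of_dvd_pow h2
    exact Nat.Prime.not_coprime_iff_dvd.2 ⟨p, hp, h4, h1⟩ hc
  have h5 : (x : ZMod p) ^ 2 + (y : ZMod p) ^ 2 = 0 := by
    have := (ZMod.natCast_eq_zero_iff (x ^ 2 + y ^ 2) p).2 h
    exact_mod_cast this
  refine ⟨(x : ZMod p) / y, ?_⟩
  field_simp
  linear_combination -h5

theorem sum_sq_of_mul {N t : ℕ} (ht0 : 0 < t) (ht : ∀ p : ℕ, p.Prime → p ∣ t → p % 4 ≠ 3)
    (h : ∃ x y : ℕ, N * t = x ^ 2 + y ^ 2) : ∃ x y : ℕ, N = x ^ 2 + y ^ 2 := by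
  rcases Nat.eq_zero_or_pos N with rfl | hN
  · exact ⟨0, 0, by simp⟩
  rw [Nat.eq_sq_add_sq_iff] at h ⊢
  intro q hq hq3
  have hqp := Nat.prime_of_mem_primeFactors hq
  have : Fact q.Prime := ⟨hqp⟩
  have hqN := Nat.dvd_of_mem_primeFactors hq
  have h1 := h q (Nat.mem_primeFactors.2 ⟨hqp, hqN.mul_right t, by positivity⟩) hq3
  have h2 : padicValNat q (N * t) = padicValNat q N := by
    rw [padicValNat.mul hN.ne' ht0.ne']
    have : padicValNat q t = 0 := by
      apply padicValNat.eq_zero_of_not_dvd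
      intro hd
      exact ht q hqp hd hq3
    omega
  rwa [h2] at h1

theorem val_even {N p : ℕ} (hp : p.Prime) (h3 : p % 4 = 3) (h : ∃ x y : ℕ, N = x ^ 2 + y ^ 2) :
    Even (padicValNat p N) := by
  rcases Nat.eq_zero_or_pos N with rfl | hN
  · simp
  by_cases hd : p ∣ N
  · exact (Nat.eq_sq_add_sq_iff.1 h) p (Nat.mem_primeFactors.2 ⟨hp, hd, hN.ne'⟩) h3
  · rw [padicValNat.eq_zero_of_not_dvd hd]; exact Even.zero

theorem one_mod_four {m : ℕ} (hm : Odd m) (h : ∀ p : ℕ, p.Prime → p ∣ m → p % 4 ≠ 3) :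
    m % 4 = 1 := by
  induction m using Nat.recOnMul with
  | zero => simp at hm
  | one => rfl
  | prime p hp =>
      have h1 := h p hp (dvd_refl p)
      obtain ⟨k, hk⟩ := hm
      omega
  | mul a b iha ihb =>
      obtain ⟨ha, hb⟩ := Nat.odd_mul.1 hm
      have h1 := iha ha (fun p hp hd => h p hp (hd.mul_right b))
      have h2 := ihb hb (fun p hp hd => h p hp (hd.mul_left a))
      rw [Nat.mul_mod, h1, h2]

theorem sq_of_val {p : ℕ} (hp : p.Prime) (C B s : ℤ) (hC : ¬ (p : ℤ) ∣ C) (hs : ¬ (p : ℤ) ∣ s) :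
    ∀ (N : ℕ) (u v : ℤ), Odd (padicValNat p N) → (N : ℤ) * s = B * u ^ 2 + C * v ^ 2 →
      IsSquare ((-(B * C) : ℤ) : ZMod p) := by
  have : Fact p.Prime := ⟨hp⟩
  have hpZ : Prime (p : ℤ) := Nat.prime_iff_prime_int.1 hp
  have hp0 : (p : ℤ) ≠ 0 := hpZ.ne_zero
  intro N
  induction N using Nat.strong_induction_on with
  | _ N ih =>
  intro u v hodd he
  have hN0 : N ≠ 0 := by
    rintro rfl
    simp at hodd
  have hpN : p ∣ N := by
    by_contra hd
    rw [padicValNat.eq_zero_of_not_dvd hd] at hodd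
    simp at hodd
  by_cases hu : (p : ℤ) ∣ u
  · by_cases hv : (p : ℤ) ∣ v
    · obtain ⟨u', rfl⟩ := hu
      obtain ⟨v', rfl⟩ := hv
      obtain ⟨M, rfl⟩ := hpN
      have e1 : (M : ℤ) * s = p * (B * u' ^ 2 + C * v' ^ 2) := by
        have : (p : ℤ) * ((M : ℤ) * s) = p * (p * (B * u' ^ 2 + C * v' ^ 2)) := by
          push_cast at he; linear_combination he
        exact mul_left_cancel₀ hp0 this
      have h2 : (p : ℤ) ∣ (M : ℤ) := by
        have h3 : (p : ℤ) ∣ (M : ℤ) * s := ⟨_, e1⟩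
        exact (hpZ.dvd_or_dvd h3).resolve_right hs
      have h3 : p ∣ M := by exact_mod_cast h2
      obtain ⟨K, rfl⟩ := h3
      have hK : K ≠ 0 := by rintro rfl; simp at hN0
      have e2 : (K : ℤ) * s = B * u' ^ 2 + C * v' ^ 2 := by
        have : (p : ℤ) * ((K : ℤ) * s) = p * (B * u' ^ 2 + C * v' ^ 2) := by
          push_cast at e1; linear_combination e1
        exact mul_left_cancel₀ hp0 this
      have hlt : K < p * (p * K) := by
        have hp2 := hp.two_le
        have hK1 : 0 < K := Nat.pos_of_ne_zero hK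
        have h8 : K < p * K := by nlinarith
        have h9 : p * K ≤ p * (p * K) := Nat.le_mul_of_pos_left _ hp.pos
        omega
      have hval : padicValNat p (p * (p * K)) = padicValNat p K + 2 := by
        rw [padicValNat.mul hp.ne_zero (Nat.mul_ne_zero hp.ne_zero hK),
          padicValNat.mul hp.ne_zero hK, padicValNat_self]
        omega
      rw [hval] at hodd
      have hodd' : Odd (padicValNat p K) := by
        obtain ⟨k, hk⟩ := hodd
        exact ⟨k - 1, by omega⟩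
      exact ih K hlt u' v' hodd' e2
    · exfalso
      have h4 : (p : ℤ) ∣ C * v ^ 2 := by
        have h5 : (p : ℤ) ∣ B * u ^ 2 := (hu.pow two_ne_zero).mul_left B
        have h6 : (p : ℤ) ∣ B * u ^ 2 + C * v ^ 2 := by
          rw [← he]; exact (Int.natCast_dvd_natCast.2 hpN).mul_right s
        exact (dvd_add_right h5).1 h6
      rcases hpZ.dvd_or_dvd h4 with h5 | h5
      · exact hC h5
      · exact hv (hpZ.dvd_of_dvd_pow h5)
  · have hu0 : (u : ZMod p) ≠ 0 := by
      intro h0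
      exact hu ((ZMod.intCast_zmod_eq_zero_iff_dvd u p).1 h0)
    have h7 : (B : ZMod p) * (u : ZMod p) ^ 2 + (C : ZMod p) * (v : ZMod p) ^ 2 = 0 := by
      have h6 : (p : ℤ) ∣ B * u ^ 2 + C * v ^ 2 := by
        rw [← he]; exact (Int.natCast_dvd_natCast.2 hpN).mul_right s
      have := (ZMod.intCast_zmod_eq_zero_iff_dvd _ p).2 h6
      exact_mod_cast this
    refine ⟨(C : ZMod p) * v / u, ?_⟩
    push_cast
    field_simp
    linear_combination (-(C : ZMod p)) * h7

end Pool.Agent.Helper793.ABCD
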