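import Mathlib

set_option autoImplicit false

namespace Pool.Agent.Helper793.ABCD

/-- Jacobi symbol is 1 when every prime factor has Legendre/Jacobi symbol 1. -/
theorem jacobi_eq_one_of_prime (a : ℤ) (b : ℕ) (hb : b ≠ 0)
    (h : ∀ p : ℕ, p.Prime → p ∣ b → jacobiSym a p = 1) : jacobiSym a b = 1 := by
  induction b using induction_on_primes with
  | zero => exact absurd rfl hb
  | one => exact jacobiSym.one_right a
  | prime_mul p c hp ih =>
    have hc : c ≠ 0 := fun h0 => hb (by rw [h0, mul_zero])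
    rw [jacobiSym.mul_right' a hp.ne_zero hc, h p hp (Dvd.intro _ rfl),
      ih hc (fun q hq hqc => h q hq (hqc.mul_left p)), one_mul]

/-- If `N` is odd and positive, coprime to `a`, and `a` is a square modulo every prime
dividing `N` to an odd power, then the Jacobi symbol `(a / N)` is `1`. -/
theorem jacobi_eq_one_of_odd_val (a : ℕ) (N : ℕ) (hN : Odd N) (hc : Nat.Coprime a N)
    (h : ∀ p : ℕ, p.Prime → Odd (padicValNat p N) → IsSquare ((a : ℕ) : ZMod p)) :
    jacobiSym (a : ℤ) N = 1 := by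
  obtain ⟨c, b, hbc, hsq⟩ := Nat.sq_mul_squarefree N
  have hN0 : N ≠ 0 := fun h0 => by rw [h0] at hN; exact absurd hN (by decide)
  have hb0 : b ≠ 0 := by
    rintro rfl
    exact hN0 (by rw [← hbc]; simp)
  have hc0 : c ≠ 0 := by
    rintro rfl
    exact hN0 (by rw [← hbc]; simp)
  have hbN : b ∣ N := ⟨b * c, by rw [← hbc]; ring⟩
  have hcN : c ∣ N := ⟨b ^ 2, by rw [← hbc]; ring⟩
  have hgb : ((a : ℤ)).gcd (b : ℤ) = 1 := by
    rw [Int.gcd_natCast_natCast]
    exact Nat.Coprime.coprime_dvd_right hbN hc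
  have key : jacobiSym (a : ℤ) c = 1 := by
    refine jacobi_eq_one_of_prime _ _ hc0 fun p hp hpc => ?_
    have hval : padicValNat p N = 2 * padicValNat p b + 1 := by
      have h1 : c.factorization p = 1 := le_antisymm
        (hsq.natFactorization_le_one p)
        (hp.factorization_pos_of_dvd hc0 hpc)
      rw [← Nat.factorization_def N hp, ← Nat.factorization_def b hp, ← hbc,
        Nat.factorization_mul (pow_ne_zero _ hb0) hc0, Nat.factorization_pow,
        Finsupp.add_apply, Finsupp.smul_apply, h1, smul_eq_mul]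
    have hsqp := h p hp (by rw [hval]; exact ⟨_, rfl⟩)
    have : Fact p.Prime := ⟨hp⟩
    have hg : ((a : ℤ)).gcd (p : ℤ) = 1 := by
      rw [Int.gcd_natCast_natCast]
      exact Nat.Coprime.coprime_dvd_right (hpc.trans hcN) hc
    rcases jacobiSym.eq_one_or_neg_one hg with h1 | h1
    · exact h1
    · exfalso
      have h2 := ZMod.nonsquare_iff_jacobiSym_eq_neg_one.mp h1
      apply h2
      rw [Int.cast_natCast]
      exact hsqp
  rw [← hbc, jacobiSym.mul_right' _ (pow_ne_zero _ hb0) hc0, jacobiSym.pow_right,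
    jacobiSym.sq_one hgb, key, one_mul]

/-- The reciprocity contradiction. -/
theorem recip_contra (A B : ℕ) (hA : A % 4 = 1) (hAB : (A * B) % 8 = 1) (h4 : 4 < A * B)
    (h : jacobiSym ((2 * A : ℕ) : ℤ) (A * B - 4) = 1) : False := by
  have hN8 : (A * B - 4) % 8 = 5 := by omega
  have hNodd : Odd (A * B - 4) := Nat.odd_iff.mpr (by omega)
  have hAodd : Odd A := Nat.odd_iff.mpr (by omega)
  push_cast at h
  rw [jacobiSym.mul_left, jacobiSym.at_two hNodd] at h
  have h8 : ZMod.χ₈ ((A * B - 4 : ℕ) : ZMod 8) = -1 := by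
    have : ((A * B - 4 : ℕ) : ZMod 8) = 5 := by
      rw [← ZMod.natCast_mod, hN8]
      rfl
    rw [this]
    decide
  rw [h8, jacobiSym.quadratic_reciprocity_one_mod_four hA hNodd] at h
  have h2 : jacobiSym ((A * B - 4 : ℕ) : ℤ) A = jacobiSym (-4 : ℤ) A := by
    apply jacobiSym.mod_left'
    rw [Nat.cast_sub h4.le]
    push_cast
    apply Int.ModEq.symm
    rw [Int.modEq_iff_dvd]
    exact ⟨B, by ring⟩
  have h3 : jacobiSym (-4 : ℤ) A = 1 := by
    have : (-4 : ℤ) = (-1) * 4 := by norm_num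
    rw [this, jacobiSym.mul_left, jacobiSym.at_neg_one hAodd, jacobiSym.at_four hAodd, mul_one,
      ZMod.χ₄_nat_one_mod_four hA]
  rw [h2, h3] at h
  norm_num at h

end Pool.Agent.Helper793.ABCD
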