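import Pool.Agent.Helper793.ABCD.Cong
import Pool.Agent.Helper793.ABCD.Recip

set_option autoImplicit false

namespace Pool.Agent.Helper793.ABCD

variable {n : ℕ}

theorem Data.mod_of_odd (D : Data n) (hA : Odd D.A) (hB : Odd D.B) : n % 8 = 5 := by
  have hn := D.hn
  have hnodd : Odd n := by rw [hn]; exact Nat.odd_mul.2 ⟨hA, hB⟩
  have hn4 : n % 4 = 1 := one_mod_four hnodd (fun p hp hd => D.no3 hp hd)
  have hA4 : D.A % 4 = 1 := one_mod_four hA (fun p hp hd => D.no3A hp hd)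
  by_contra hne
  have hn8 : n % 8 = 1 := by omega
  have h4 := D.four_le
  have hNodd : Odd (n - 4) := Nat.odd_iff.2 (by omega)
  have hcop : Nat.Coprime (2 * D.A) (n - 4) := by
    by_contra hnc
    obtain ⟨p, hp, h1, h2⟩ := Nat.Prime.not_coprime_iff_dvd.1 hnc
    have hp2 : p ≠ 2 := by
      rintro rfl
      rw [Nat.odd_iff] at hNodd
      omega
    have h3 : p ∣ D.A := by
      rcases (Nat.Prime.dvd_mul hp).1 h1 with h | h
      · exact absurd ((Nat.prime_dvd_prime_iff_eq hp Nat.prime_two).1 h) hp2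
      · exact h
    have h5 : p ∣ n := by rw [hn]; exact h3.mul_right _
    have h6 : p ∣ 4 := by
      have h7 : p ∣ (n - 4) + 4 := by rwa [Nat.sub_add_cancel h4]
      exact (Nat.dvd_add_right h2).1 h7
    have h8 : p ∣ 2 ^ 2 := by simpa using h6
    exact hp2 ((Nat.prime_dvd_prime_iff_eq hp Nat.prime_two).1 (hp.dvd_of_dvd_pow h8))
  have hj := jacobi_eq_one_of_odd_val (2 * D.A) (n - 4) hNodd hcop (by
    intro p hp ho
    have hp2 : p ≠ 2 := by
      rintro rfl
      rw [padicValNat.eq_zero_of_not_dvd (by rw [Nat.odd_iff] at hNodd; omega)] at ho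
      simp at ho
    exact (D.qr hp hp2 (Or.inl ho)).2.1)
  exact recip_contra D.A D.B hA4 (by rw [← hn]; exact hn8) (by rw [← hn]; omega)
    (by rw [← hn]; exact hj)

theorem not_both_even {x y : ℕ} (h : Nat.Coprime x y) (hx : Even x) : Odd y := by
  by_contra hy
  rw [Nat.not_odd_iff_even] at hy
  exact Nat.Prime.not_coprime_iff_dvd.2 ⟨2, Nat.prime_two, hx.two_dvd, hy.two_dvd⟩ h

theorem Data.mod_eight (D : Data n) : n % 8 = 5 ∨ n % 32 = 4 := by
  have h1 := D.h1
  have h2 := D.h2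
  rcases Nat.even_or_odd D.α with ea | oa
  · left
    have := parity_aux ea (not_both_even D.cαδ ea) (not_both_even D.cαβ ea)
      (not_both_even D.cαγ ea) h1 h2
    exact D.mod_of_odd this.1 this.2
  rcases Nat.even_or_odd D.δ with ed | od
  · left
    have := parity_aux (A := D.A) (B := D.B) ed (not_both_even D.cαδ.symm ed)
      (not_both_even D.cβδ.symm ed) (not_both_even D.cγδ.symm ed)
      (by rw [add_comm]; exact h1) (by rw [mul_comm D.δ D.α]; exact h2)
    exact D.mod_of_odd this.1 this.2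
  rcases Nat.even_or_odd D.β with eb | ob
  · left
    have := parity_aux (A := D.B) (B := D.A) eb (not_both_even D.cβγ eb)
      (not_both_even D.cαβ.symm eb) (not_both_even D.cβδ eb) h2 h1
    exact D.mod_of_odd this.2 this.1
  rcases Nat.even_or_odd D.γ with ec | oc
  · left
    have := parity_aux (A := D.B) (B := D.A) ec (not_both_even D.cβγ.symm ec)
      (not_both_even D.cαγ.symm ec) (not_both_even D.cγδ ec)
      (by rw [add_comm]; exact h2) (by rw [mul_comm D.γ D.β]; exact h1)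
    exact D.mod_of_odd this.2 this.1
  · right
    exact D.mod_of_all_odd oa ob oc od

theorem main (h : Solvable n) :
    (n % 8 = 5 ∨ n % 32 = 4) ∧ (n % 9 = 4 ∨ n % 9 = 5) ∧
    (∀ p : ℕ, p.Prime → p ∣ n → p % 4 ≠ 3) ∧
    (∃ x y : ℕ, n = 4 + (x ^ 2 + y ^ 2)) ∧ (∃ x y : ℕ, n + 4 = x ^ 2 + y ^ 2) ∧
    ∃ A B : ℕ, n = A * B ∧
      ∀ p : ℕ, p.Prime → p ≠ 2 → (Odd (padicValNat p (n - 4)) ∨ Odd (padicValNat p (n + 4))) →
        p % 4 = 1 ∧ IsSquare ((2 * A : ℕ) : ZMod p) ∧ IsSquare ((2 * B : ℕ) : ZMod p) := by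
  obtain ⟨D⟩ := step2 h
  have h4 := D.four_le
  refine ⟨D.mod_eight, D.mod_nine, fun p hp hd => D.no3 hp hd, ?_, D.sq_plus,
    D.A, D.B, D.hn, fun p hp h2 ho => D.qr hp h2 ho⟩
  obtain ⟨x, y, hxy⟩ := D.sq_minus
  exact ⟨x, y, by omega⟩

end Pool.Agent.Helper793.ABCD
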