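import Pool.Agent.Helper793.ABCD.Facts

set_option autoImplicit false

namespace Pool.Agent.Helper793.ABCD

variable {n : ℕ}

theorem Data.no3A (D : Data n) {p : ℕ} (hp : p.Prime) (h : p ∣ D.A) : p % 4 ≠ 3 :=
  prime_mod hp D.cαδ (by rw [D.h1]; exact h.mul_right _)

theorem Data.no3B (D : Data n) {p : ℕ} (hp : p.Prime) (h : p ∣ D.B) : p % 4 ≠ 3 :=
  prime_mod hp D.cβγ (by rw [D.h2]; exact h.mul_right _)

theorem Data.no3s (D : Data n) {p : ℕ} (hp : p.Prime) (h : p ∣ D.β * D.γ) : p % 4 ≠ 3 :=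
  prime_mod hp D.cαδ (by rw [D.h1]; exact h.mul_left _)

theorem Data.no3t (D : Data n) {p : ℕ} (hp : p.Prime) (h : p ∣ D.α * D.δ) : p % 4 ≠ 3 :=
  prime_mod hp D.cβγ (by rw [D.h2]; exact h.mul_left _)

theorem Data.no3 (D : Data n) {p : ℕ} (hp : p.Prime) (h : p ∣ n) : p % 4 ≠ 3 := by
  have h1 := D.hn
  rw [h1] at h
  rcases (Nat.Prime.dvd_mul hp).1 h with h | h
  · exact D.no3A hp h
  · exact D.no3B hp h

theorem Data.no3T (D : Data n) {p : ℕ} (hp : p.Prime)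
    (h : p ∣ (D.α * D.δ) * (D.β * D.γ)) : p % 4 ≠ 3 := by
  rcases (Nat.Prime.dvd_mul hp).1 h with h | h
  · exact D.no3t hp h
  · exact D.no3s hp h

theorem Data.keyZ (D : Data n) :
    (n : ℤ) * ((D.α * D.δ) * (D.β * D.γ)) =
      ((D.α : ℤ) ^ 2 + D.δ ^ 2) * ((D.β : ℤ) ^ 2 + D.γ ^ 2) := by
  have h1 : ((D.α : ℤ) ^ 2 + D.δ ^ 2) = D.A * (D.β * D.γ) := by exact_mod_cast D.h1
  have h2 : ((D.β : ℤ) ^ 2 + D.γ ^ 2) = D.B * (D.α * D.δ) := by exact_mod_cast D.h2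
  have h3 : (n : ℤ) = D.A * D.B := by exact_mod_cast D.hn
  rw [h1, h2, h3]; ring

theorem Data.Tpos (D : Data n) : 0 < (D.α * D.δ) * (D.β * D.γ) :=
  Nat.mul_pos (Nat.mul_pos D.hα D.hδ) (Nat.mul_pos D.hβ D.hγ)

theorem Data.four_le (D : Data n) : 4 ≤ n := by
  have hT := D.Tpos
  have hTZ : (0 : ℤ) < (D.α * D.δ) * (D.β * D.γ) := by exact_mod_cast hT
  have h := D.keyZ
  have e : ((n : ℤ) - 4) * ((D.α * D.δ) * (D.β * D.γ)) =
      ((D.α : ℤ) * D.β - D.γ * D.δ) ^ 2 + ((D.α : ℤ) * D.γ - D.β * D.δ) ^ 2 := by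
    linear_combination h
  by_contra hlt
  push Not at hlt
  have h1 : (n : ℤ) - 4 < 0 := by
    have : (n : ℤ) < 4 := by exact_mod_cast hlt
    linarith
  have h2 : ((n : ℤ) - 4) * ((D.α * D.δ) * (D.β * D.γ)) < 0 := mul_neg_of_neg_of_pos h1 hTZ
  rw [e] at h2
  have := sq_nonneg ((D.α : ℤ) * D.β - D.γ * D.δ)
  have := sq_nonneg ((D.α : ℤ) * D.γ - D.β * D.δ)
  linarith

theorem Data.sq_minus (D : Data n) : ∃ x y : ℕ, n - 4 = x ^ 2 + y ^ 2 := by
  refine sum_sq_of_mul D.Tpos (fun p hp hd => D.no3T hp hd)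
    ⟨((D.α : ℤ) * D.β - D.γ * D.δ).natAbs, ((D.α : ℤ) * D.γ - D.β * D.δ).natAbs, ?_⟩
  have h := D.keyZ
  zify [D.four_le]
  rw [sq_abs, sq_abs]
  linear_combination h

theorem Data.sq_plus (D : Data n) : ∃ x y : ℕ, n + 4 = x ^ 2 + y ^ 2 := by
  refine sum_sq_of_mul D.Tpos (fun p hp hd => D.no3T hp hd)
    ⟨D.α * D.β + D.γ * D.δ, D.α * D.γ + D.β * D.δ, ?_⟩
  have h := D.keyZ
  zify
  linear_combination h

/-- the square-class condition -/
theorem Data.qr (D : Data n) {p : ℕ} (hp : p.Prime) (h2 : p ≠ 2)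
    (hodd : Odd (padicValNat p (n - 4)) ∨ Odd (padicValNat p (n + 4))) :
    p % 4 = 1 ∧ IsSquare ((2 * D.A : ℕ) : ZMod p) ∧ IsSquare ((2 * D.B : ℕ) : ZMod p) := by
  have : Fact p.Prime := ⟨hp⟩
  have hp1 : p % 4 = 1 := by
    have hodd2 := hp.odd_of_ne_two h2
    by_contra hne
    have h3 : p % 4 = 3 := by
      obtain ⟨k, hk⟩ := hodd2
      omega
    rcases hodd with h | h
    · exact (Nat.not_even_iff_odd.2 h) (val_even hp h3 D.sq_minus)
    · exact (Nat.not_even_iff_odd.2 h) (val_even hp h3 D.sq_plus)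
  have hm1 : IsSquare (-1 : ZMod p) := ZMod.exists_sq_eq_neg_one_iff.2 (by omega)
  have hpZ : Prime (p : ℤ) := Nat.prime_iff_prime_int.1 hp
  have hp2Z : ¬ (p : ℤ) ∣ 2 := by
    intro h
    have h' : p ∣ 2 := by exact_mod_cast h
    exact h2 ((Nat.prime_dvd_prime_iff_eq hp Nat.prime_two).1 h')
  have e1 : ((D.α : ℤ) ^ 2 + D.δ ^ 2) = D.A * (D.β * D.γ) := by exact_mod_cast D.h1
  have e2 : ((D.β : ℤ) ^ 2 + D.γ ^ 2) = D.B * (D.α * D.δ) := by exact_mod_cast D.h2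
  have e3 : (n : ℤ) = D.A * D.B := by exact_mod_cast D.hn
  have e4 : (((n - 4 : ℕ)) : ℤ) = (n : ℤ) - 4 := by rw [Nat.cast_sub D.four_le]; rfl
  have e5 : (((n + 4 : ℕ)) : ℤ) = (n : ℤ) + 4 := by push_cast; rfl
  -- one of -2B, -2A is a square
  have hone : IsSquare ((-((D.B : ℤ) * 2) : ℤ) : ZMod p) ∨
      IsSquare ((-((D.A : ℤ) * 2) : ℤ) : ZMod p) := by
    by_cases hs : (p : ℤ) ∣ (D.β * D.γ : ℤ)
    · -- then p does not divide α δ
      have ht : ¬ (p : ℤ) ∣ (D.α * D.δ : ℤ) := by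
        intro ht
        have hs' : p ∣ D.β * D.γ := by exact_mod_cast hs
        have ht' : p ∣ D.α * D.δ := by exact_mod_cast ht
        have hcop : Nat.Coprime (D.α * D.δ) (D.β * D.γ) := by
          apply Nat.Coprime.mul_left
          · exact Nat.Coprime.mul_right D.cαβ D.cαγ
          · exact Nat.Coprime.mul_right D.cβδ.symm D.cγδ.symm
        exact Nat.Prime.not_coprime_iff_dvd.2 ⟨p, hp, ht', hs'⟩ hcop
      right
      rcases hodd with h | h
      · refine sq_of_val hp 2 D.A (D.α * D.δ) hp2Z ht _ ((D.β : ℤ) - D.γ) ((D.α : ℤ) - D.δ) h ?_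
        rw [e4, e3]; linear_combination (-(D.A : ℤ)) * e2 + (-2 : ℤ) * e1
      · refine sq_of_val hp 2 D.A (D.α * D.δ) hp2Z ht _ ((D.β : ℤ) - D.γ) ((D.α : ℤ) + D.δ) h ?_
        rw [e5, e3]; linear_combination (-(D.A : ℤ)) * e2 + (-2 : ℤ) * e1
    · left
      rcases hodd with h | h
      · refine sq_of_val hp 2 D.B (D.β * D.γ) hp2Z hs _ ((D.α : ℤ) - D.δ) ((D.β : ℤ) - D.γ) h ?_
        rw [e4, e3]; linear_combination (-(D.B : ℤ)) * e1 + (-2 : ℤ) * e2
      · refine sq_of_val hp 2 D.B (D.β * D.γ) hp2Z hs _ ((D.α : ℤ) - D.δ) ((D.β : ℤ) + D.γ) h ?_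
        rw [e5, e3]; linear_combination (-(D.B : ℤ)) * e1 + (-2 : ℤ) * e2
  have hone' : IsSquare ((2 * D.B : ℕ) : ZMod p) ∨ IsSquare ((2 * D.A : ℕ) : ZMod p) := by
    rcases hone with h | h
    · left
      have := h.mul hm1
      push_cast at this ⊢
      have e : -((D.B : ZMod p) * 2) * -1 = 2 * (D.B : ZMod p) := by ring
      rwa [e] at this
    · right
      have := h.mul hm1
      push_cast at this ⊢
      have e : -((D.A : ZMod p) * 2) * -1 = 2 * (D.A : ZMod p) := by ring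
      rwa [e] at this
  -- 2A * 2B = ± 16
  have hprod : ((2 * D.A : ℕ) : ZMod p) * ((2 * D.B : ℕ) : ZMod p) = 16 ∨
      ((2 * D.A : ℕ) : ZMod p) * ((2 * D.B : ℕ) : ZMod p) = -16 := by
    have hAB : ((2 * D.A : ℕ) : ZMod p) * ((2 * D.B : ℕ) : ZMod p) = 4 * (n : ZMod p) := by
      have : (n : ZMod p) = D.A * D.B := by exact_mod_cast congrArg (Nat.cast (R := ZMod p)) D.hn
      rw [this]; push_cast; ring
    rcases hodd with h | h
    · left
      have hd : p ∣ n - 4 := by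
        by_contra hd; rw [padicValNat.eq_zero_of_not_dvd hd] at h; simp at h
      have h0 : ((n - 4 : ℕ) : ZMod p) = 0 := (ZMod.natCast_eq_zero_iff _ _).2 hd
      rw [Nat.cast_sub D.four_le] at h0
      rw [hAB]; push_cast at h0; linear_combination 4 * h0
    · right
      have hd : p ∣ n + 4 := by
        by_contra hd; rw [padicValNat.eq_zero_of_not_dvd hd] at h; simp at h
      have h0 : ((n + 4 : ℕ) : ZMod p) = 0 := (ZMod.natCast_eq_zero_iff _ _).2 hd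
      rw [hAB]; push_cast at h0; linear_combination 4 * h0
  have h16 : IsSquare (16 : ZMod p) := ⟨4, by norm_num⟩
  have h16' : IsSquare (-16 : ZMod p) := by
    have := h16.mul hm1
    rwa [mul_neg_one] at this
  have hpr : IsSquare (((2 * D.A : ℕ) : ZMod p) * ((2 * D.B : ℕ) : ZMod p)) := by
    rcases hprod with h | h <;> rw [h] <;> assumption
  have h2p : (2 : ZMod p) ≠ 0 := by
    intro h
    have h' : ((2 : ℤ) : ZMod p) = 0 := by exact_mod_cast h
    exact hp2Z ((ZMod.intCast_zmod_eq_zero_iff_dvd 2 p).1 h')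
  have hne : ((2 * D.A : ℕ) : ZMod p) * ((2 * D.B : ℕ) : ZMod p) ≠ 0 := by
    have h16n : (16 : ZMod p) ≠ 0 := by
      have : (16 : ZMod p) = 2 ^ 4 := by norm_num
      rw [this]; exact pow_ne_zero 4 h2p
    rcases hprod with h | h <;> rw [h]
    · exact h16n
    · exact neg_ne_zero.2 h16n
  have hA0 := left_ne_zero_of_mul hne
  have hB0 := right_ne_zero_of_mul hne
  refine ⟨hp1, ?_⟩
  rcases hone' with h | h
  · refine ⟨?_, h⟩
    have := hpr.div h
    rwa [mul_div_cancel_right₀ _ hB0] at this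
  · refine ⟨h, ?_⟩
    have := hpr.div h
    rwa [mul_div_cancel_left₀ _ hA0] at this

end Pool.Agent.Helper793.ABCD
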