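import Mathlib

set_option autoImplicit false

namespace Pool.Agent.Helper793.ABCD.SumTwoSq

open Filter Topology ArithmeticFunction ArithmeticFunction.vonMangoldt

/-- The reciprocals of the primes congruent to `3` modulo `4` are not summable. -/
theorem not_summable_primes_three_mod_four :
    ¬ Summable (fun n : ℕ => if n.Prime ∧ ((n : ZMod 4) = 3) then (1 : ℝ) / n else 0) := by
  intro H
  have hunit : IsUnit (3 : ZMod 4) := by decide
  obtain ⟨C, hC⟩ := LSeries_residueClass_lower_bound (q := 4) (a := 3) hunit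
  have hS2 := summable_residueClass_non_primes_div (q := 4) (3 : ZMod 4)
  set bound : ℕ → ℝ := fun n =>
    (if n.Prime ∧ ((n : ZMod 4) = 3) then (1 : ℝ) / n else 0) +
      (if n.Prime then 0 else residueClass (3 : ZMod 4) n) / n with hbound
  have hsum : Summable bound := H.add hS2
  -- the functions
  set x : ℕ → ℝ := fun j => 1 + 1 / ((j : ℝ) + 1) with hx
  have hx1 : ∀ j, 1 < x j := by intro j; simp only [hx]; have : (0:ℝ) < 1 / ((j:ℝ)+1) := by positivity
                                linarith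
  have hx2 : ∀ j, x j ≤ 2 := by
    intro j; simp only [hx]
    have : 1 / ((j:ℝ)+1) ≤ 1 := by
      rw [div_le_one (by positivity)]; have := Nat.cast_nonneg (α := ℝ) j; linarith
    linarith
  have hxlim : Tendsto (fun j => x j - 1) atTop (𝓝 0) := by
    have := tendsto_one_div_add_atTop_nhds_zero_nat (𝕜 := ℝ)
    simpa [hx] using this
  let f : ℕ → ℕ → ℝ := fun j n => (x j - 1) * (residueClass (3 : ZMod 4) n / (n : ℝ) ^ (x j))
  have hf_bound : ∀ j n, ‖f j n‖ ≤ bound n := by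
    intro j n
    have hpos : 0 < x j - 1 := by linarith [hx1 j]
    have hnn : 0 ≤ residueClass (3 : ZMod 4) n := residueClass_nonneg _ n
    have hn0 : 0 ≤ (n:ℝ) ^ (x j) := Real.rpow_nonneg (Nat.cast_nonneg n) _
    have hfn : 0 ≤ f j n := mul_nonneg hpos.le (div_nonneg hnn hn0)
    rw [Real.norm_of_nonneg hfn]
    rcases Nat.eq_zero_or_pos n with rfl | hn
    · simp [f, hbound]
    have hnR : (0:ℝ) < n := by exact_mod_cast hn
    have hn1 : (1:ℝ) ≤ n := by exact_mod_cast hn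
    by_cases hp : n.Prime
    · by_cases h3 : (n : ZMod 4) = 3
      · have hrc : residueClass (3 : ZMod 4) n = Real.log n := by
          simp [residueClass, Set.indicator, h3, vonMangoldt_apply_prime hp]
        have hb : bound n = 1 / n := by simp [hbound, hp, h3]
        rw [hb]
        simp only [f, hrc]
        have e1 : (n:ℝ) ^ (x j) = n * (n:ℝ) ^ (x j - 1) := by
          rw [← Real.rpow_one_add' hnR.le (by linarith)]; congr 1; ring
        rw [e1]
        have hlogn : 0 ≤ Real.log n := Real.log_nonneg hn1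
        have e2 : (x j - 1) * Real.log n ≤ (n:ℝ) ^ (x j - 1) := by
          rw [Real.rpow_def_of_pos hnR]
          have := Real.add_one_le_exp (Real.log n * (x j - 1))
          nlinarith
        have hpos2 : 0 < (n:ℝ) ^ (x j - 1) := Real.rpow_pos_of_pos hnR _
        rw [← mul_div_assoc, div_le_div_iff₀ (by positivity) hnR]
        nlinarith
      · have hrc : residueClass (3 : ZMod 4) n = 0 := by
          simp [residueClass, Set.indicator, h3]
        simp only [f, hrc]
        simp [hbound, hp, h3]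
    · have hb : bound n = residueClass (3 : ZMod 4) n / n := by simp [hbound, hp]
      rw [hb]
      simp only [f]
      have e1 : (n:ℝ) ≤ (n:ℝ) ^ (x j) := by
        conv_lhs => rw [← Real.rpow_one (n:ℝ)]
        exact Real.rpow_le_rpow_of_exponent_le hn1 (hx1 j).le
      have e2 : residueClass (3 : ZMod 4) n / (n : ℝ) ^ (x j) ≤ residueClass (3 : ZMod 4) n / n :=
        div_le_div_of_nonneg_left hnn hnR e1
      have e3 : x j - 1 ≤ 1 := by linarith [hx2 j]
      have e4 : 0 ≤ residueClass (3 : ZMod 4) n / (n : ℝ) ^ (x j) := div_nonneg hnn hn0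
      nlinarith
  have hf_lim : ∀ n, Tendsto (fun j => f j n) atTop (𝓝 0) := by
    intro n
    have hnn : 0 ≤ residueClass (3 : ZMod 4) n := residueClass_nonneg _ n
    rcases Nat.eq_zero_or_pos n with rfl | hn
    · simp [f]
    have hnR : (0:ℝ) < n := by exact_mod_cast hn
    have hn1 : (1:ℝ) ≤ n := by exact_mod_cast hn
    have up : ∀ j, f j n ≤ (x j - 1) * (residueClass (3 : ZMod 4) n / n) := by
      intro j
      have hpos : 0 < x j - 1 := by linarith [hx1 j]
      have e1 : (n:ℝ) ≤ (n:ℝ) ^ (x j) := by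
        conv_lhs => rw [← Real.rpow_one (n:ℝ)]
        exact Real.rpow_le_rpow_of_exponent_le hn1 (hx1 j).le
      exact mul_le_mul_of_nonneg_left (div_le_div_of_nonneg_left hnn hnR e1) hpos.le
    have lo : ∀ j, 0 ≤ f j n := by
      intro j
      have hpos : 0 < x j - 1 := by linarith [hx1 j]
      exact mul_nonneg hpos.le (div_nonneg hnn (Real.rpow_nonneg (Nat.cast_nonneg n) _))
    have l2 : Tendsto (fun j => (x j - 1) * (residueClass (3 : ZMod 4) n / n)) atTop (𝓝 0) := by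
      have := hxlim.mul_const (residueClass (3 : ZMod 4) n / n)
      simpa using this
    exact squeeze_zero lo up l2
  have hT := tendsto_tsum_of_dominated_convergence (f := f) (g := fun _ => (0:ℝ)) hsum
    hf_lim (Filter.Eventually.of_forall hf_bound)
  simp only [tsum_zero] at hT
  have hlow : ∀ j, (1/2 : ℝ) - C * (x j - 1) ≤ ∑' n, f j n := by
    intro j
    have hpos : 0 < x j - 1 := by linarith [hx1 j]
    have h1 := hC (x := x j) ⟨hx1 j, hx2 j⟩
    have ht : ((Nat.totient 4 : ℕ) : ℝ)⁻¹ = 1/2 := by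
      have : Nat.totient 4 = 2 := by decide
      rw [this]; norm_num
    rw [ht] at h1
    have h2 : ∑' n, f j n = (x j - 1) * ∑' n, residueClass (3 : ZMod 4) n / (n : ℝ) ^ (x j) := by
      rw [← tsum_mul_left]
    rw [h2]
    have h3 := mul_le_mul_of_nonneg_left h1 hpos.le
    have h4 : (x j - 1) * (1 / 2 / (x j - 1) - C) = 1/2 - C * (x j - 1) := by
      field_simp
    linarith [h4 ▸ h3]
  have hl2 : Tendsto (fun j => (1/2 : ℝ) - C * (x j - 1)) atTop (𝓝 (1/2)) := by
    have := (hxlim.const_mul C).const_sub (1/2 : ℝ)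
    simpa using this
  have := le_of_tendsto_of_tendsto' hl2 hT hlow
  norm_num at this

/-- The allowed residues for a finite set of primes: no `p` in `T` divides `r` exactly once. -/
def Allowed (T : Finset ℕ) (r : ℕ) : Prop := ∀ p ∈ T, p ∣ r → p ^ 2 ∣ r

instance (T : Finset ℕ) : DecidablePred (Allowed T) := fun r => by
  unfold Allowed; infer_instance

theorem allowed_of_sum_two_sq {T : Finset ℕ} (hT : ∀ p ∈ T, p.Prime ∧ ((p : ZMod 4) = 3))
    {r : ℕ} (hr : ∃ a b : ℕ, r = a ^ 2 + b ^ 2) : Allowed T r := by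
  intro p hp hpr
  obtain ⟨hpp, hp3⟩ := hT p hp
  have hp3' : p % 4 = 3 := by
    have : ((p : ℕ) : ZMod 4) = ((3 : ℕ) : ZMod 4) := by simpa using hp3
    rw [ZMod.natCast_eq_natCast_iff] at this
    have := this
    unfold Nat.ModEq at this
    omega
  rcases Nat.eq_zero_or_pos r with rfl | hpos
  · simp
  have h := (Nat.eq_sq_add_sq_iff (n := r)).1 hr p
    (Nat.mem_primeFactors.2 ⟨hpp, hpr, hpos.ne'⟩) hp3'
  have : Fact p.Prime := ⟨hpp⟩
  have h1 : 1 ≤ padicValNat p r := one_le_padicValNat_of_dvd hpos.ne' hpr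
  have h2 : 2 ≤ padicValNat p r := by
    obtain ⟨k, hk⟩ := h
    omega
  exact (pow_dvd_pow p h2).trans pow_padicValNat_dvd

/-- Number of allowed residues below `N`. -/
def cnt (T : Finset ℕ) (N : ℕ) : ℕ := ((Finset.range N).filter (Allowed T)).card

theorem cnt_prime_sq {p : ℕ} (hp : p.Prime) : cnt {p} (p ^ 2) + (p - 1) ≤ p ^ 2 := by
  classical
  have h1 : ((Finset.Icc 1 (p - 1)).image (fun j => j * p)).card = p - 1 := by
    rw [Finset.card_image_of_injective]
    · simp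
    · intro a b hab
      exact Nat.eq_of_mul_eq_mul_right hp.pos hab
  have hdisj : Disjoint ((Finset.range (p ^ 2)).filter (Allowed {p}))
      ((Finset.Icc 1 (p - 1)).image (fun j => j * p)) := by
    rw [Finset.disjoint_left]
    intro r hr hr2
    rw [Finset.mem_filter] at hr
    rw [Finset.mem_image] at hr2
    obtain ⟨j, hj, rfl⟩ := hr2
    rw [Finset.mem_Icc] at hj
    have := hr.2 p (Finset.mem_singleton_self p) (Dvd.intro_left j rfl)
    have h3 : j * p < p ^ 2 := Finset.mem_range.1 hr.1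
    have h4 : 0 < j * p := Nat.mul_pos (by omega) hp.pos
    have := Nat.le_of_dvd h4 this
    omega
  have hsub : ((Finset.range (p ^ 2)).filter (Allowed {p})) ∪
      ((Finset.Icc 1 (p - 1)).image (fun j => j * p)) ⊆ Finset.range (p ^ 2) := by
    intro r hr
    rw [Finset.mem_union] at hr
    rcases hr with hr | hr
    · exact (Finset.mem_filter.1 hr).1
    · rw [Finset.mem_image] at hr
      obtain ⟨j, hj, rfl⟩ := hr
      rw [Finset.mem_Icc] at hj
      rw [Finset.mem_range, pow_two]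
      exact Nat.mul_lt_mul_of_pos_right (by have := hp.pos; omega) hp.pos
  have := Finset.card_le_card hsub
  rw [Finset.card_union_of_disjoint hdisj, h1, Finset.card_range] at this
  exact this

theorem allowed_mod {T : Finset ℕ} {Q r : ℕ} (hQ : ∀ p ∈ T, p ^ 2 ∣ Q) (hr : Allowed T r) :
    Allowed T (r % Q) := by
  intro p hp hpr
  have h2 := hQ p hp
  have h1 : p ∣ Q := (Dvd.intro_left (p ^ 1) (by ring)).trans h2
  have h3 : p ∣ r := (Nat.dvd_mod_iff h1).1 hpr
  exact (Nat.dvd_mod_iff h2).2 (hr p hp h3)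

theorem allowed_insert {T : Finset ℕ} {p r : ℕ} :
    Allowed (insert p T) r ↔ Allowed {p} r ∧ Allowed T r := by
  unfold Allowed
  simp

theorem cnt_mul {T : Finset ℕ} {Q p : ℕ} (hQ : ∀ q ∈ T, q ^ 2 ∣ Q)
    (hco : Nat.Coprime Q (p ^ 2)) (hQ0 : 0 < Q) (hp0 : 0 < p) :
    cnt (insert p T) (Q * p ^ 2) ≤ cnt T Q * cnt {p} (p ^ 2) := by
  classical
  unfold cnt
  rw [← Finset.card_product]
  apply Finset.card_le_card_of_injOn (fun r => (r % Q, r % p ^ 2))
  · intro r hr
    have hr' := Finset.mem_filter.1 (Finset.mem_coe.1 hr)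
    rw [allowed_insert] at hr'
    have hp2 : 0 < p ^ 2 := by positivity
    rw [Finset.mem_coe, Finset.mem_product]
    refine ⟨Finset.mem_filter.2 ⟨Finset.mem_range.2 (Nat.mod_lt _ hQ0), allowed_mod hQ hr'.2.2⟩,
      Finset.mem_filter.2 ⟨Finset.mem_range.2 (Nat.mod_lt _ hp2), allowed_mod ?_ hr'.2.1⟩⟩
    intro q hq
    rw [Finset.mem_singleton] at hq
    rw [hq]
  · intro r hr r' hr' heq
    have hr1 := Finset.mem_range.1 (Finset.mem_filter.1 (Finset.mem_coe.1 hr)).1
    have hr1' := Finset.mem_range.1 (Finset.mem_filter.1 (Finset.mem_coe.1 hr')).1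
    simp only [Prod.mk.injEq] at heq
    have h1 : r ≡ r' [MOD Q] := heq.1
    have h2 : r ≡ r' [MOD p ^ 2] := heq.2
    have h3 := (Nat.modEq_and_modEq_iff_modEq_mul hco).1 ⟨h1, h2⟩
    exact Nat.ModEq.eq_of_lt_of_lt h3 hr1 hr1'

theorem cnt_prod (T : Finset ℕ) (hT : ∀ p ∈ T, p.Prime) :
    (cnt T (∏ p ∈ T, p ^ 2) : ℝ) ≤ (∏ p ∈ T, (p : ℝ) ^ 2) * ∏ p ∈ T, (1 - ((p : ℝ) - 1) / (p : ℝ) ^ 2) := by
  classical
  induction T using Finset.induction_on with
  | empty =>
    have : cnt ∅ 1 ≤ 1 := (Finset.card_filter_le _ _).trans (by simp)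
    simpa using this
  | insert p T hpT ih =>
    have hp : p.Prime := hT p (Finset.mem_insert_self p T)
    have hT' : ∀ q ∈ T, q.Prime := fun q hq => hT q (Finset.mem_insert_of_mem hq)
    have ih' := ih hT'
    rw [Finset.prod_insert hpT, Finset.prod_insert hpT, Finset.prod_insert hpT]
    have hQ : ∀ q ∈ T, q ^ 2 ∣ ∏ p ∈ T, p ^ 2 := fun q hq => Finset.dvd_prod_of_mem (fun p => p ^ 2) hq
    have hQ0 : 0 < ∏ p ∈ T, p ^ 2 := Finset.prod_pos (fun q hq => by have := (hT' q hq).pos; positivity)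
    have hco : Nat.Coprime (∏ p ∈ T, p ^ 2) (p ^ 2) := by
      apply Nat.Coprime.prod_left
      intro q hq
      apply Nat.Coprime.pow
      exact (Nat.coprime_primes (hT' q hq) hp).2 (fun h => hpT (h ▸ hq))
    have h1 := cnt_mul (T := T) hQ hco hQ0 hp.pos
    have h2 := cnt_prime_sq hp
    have h2' : (cnt {p} (p ^ 2) : ℝ) ≤ (p:ℝ) ^ 2 * (1 - ((p:ℝ) - 1) / (p:ℝ) ^ 2) := by
      have hp1 : 1 ≤ p := hp.pos
      have h3 : ((cnt {p} (p ^ 2) + (p - 1) : ℕ) : ℝ) ≤ ((p ^ 2 : ℕ) : ℝ) := by exact_mod_cast h2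
      push_cast [Nat.cast_sub hp1] at h3
      have hp0 : (0:ℝ) < p := by exact_mod_cast hp.pos
      have : (p:ℝ) ^ 2 * (1 - ((p:ℝ) - 1) / (p:ℝ) ^ 2) = (p:ℝ)^2 - ((p:ℝ) - 1) := by
        field_simp
      rw [this]; linarith
    have h4 : (cnt (insert p T) (p ^ 2 * ∏ p ∈ T, p ^ 2) : ℝ) ≤ cnt T (∏ p ∈ T, p ^ 2) * cnt {p} (p ^ 2) := by
      rw [mul_comm (p ^ 2)]
      exact_mod_cast h1
    have h5 : (0:ℝ) ≤ (p:ℝ) ^ 2 * (1 - ((p:ℝ) - 1) / (p:ℝ) ^ 2) := le_trans (Nat.cast_nonneg _) h2'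
    calc (cnt (insert p T) (p ^ 2 * ∏ p ∈ T, p ^ 2) : ℝ)
        ≤ cnt T (∏ p ∈ T, p ^ 2) * cnt {p} (p ^ 2) := h4
      _ ≤ ((∏ p ∈ T, (p : ℝ) ^ 2) * ∏ p ∈ T, (1 - ((p : ℝ) - 1) / (p : ℝ) ^ 2)) *
          ((p:ℝ) ^ 2 * (1 - ((p:ℝ) - 1) / (p:ℝ) ^ 2)) := by
            apply mul_le_mul ih' h2' (Nat.cast_nonneg _)
            exact le_trans (Nat.cast_nonneg _) ih'
      _ = _ := by ring

theorem cnt_le {T : Finset ℕ} {Q X : ℕ} (hQ : ∀ q ∈ T, q ^ 2 ∣ Q) (hQ0 : 0 < Q) :
    cnt T X ≤ (X / Q + 1) * cnt T Q := by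
  classical
  unfold cnt
  rw [← Finset.card_range (X / Q + 1), ← Finset.card_product]
  apply Finset.card_le_card_of_injOn (fun r => (r / Q, r % Q))
  · intro r hr
    have hr' := Finset.mem_filter.1 (Finset.mem_coe.1 hr)
    rw [Finset.mem_coe, Finset.mem_product]
    refine ⟨Finset.mem_range.2 ?_, Finset.mem_filter.2
      ⟨Finset.mem_range.2 (Nat.mod_lt _ hQ0), allowed_mod hQ hr'.2⟩⟩
    have := Finset.mem_range.1 hr'.1
    have h1 : r / Q ≤ X / Q := Nat.div_le_div_right this.le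
    show r / Q < X / Q + 1
    omega
  · intro r _ r' _ heq
    simp only [Prod.mk.injEq] at heq
    rw [← Nat.div_add_mod r Q, ← Nat.div_add_mod r' Q, heq.1, heq.2]

/-- the product over primes three modulo four can be made arbitrarily small -/
theorem exists_prod_small (ε : ℝ) (hε : 0 < ε) :
    ∃ T : Finset ℕ, (∀ p ∈ T, p.Prime ∧ ((p : ZMod 4) = 3)) ∧
      ∏ p ∈ T, (1 - ((p : ℝ) - 1) / (p : ℝ) ^ 2) < ε := by
  classical
  have h := not_summable_primes_three_mod_four
  rw [not_summable_iff_tendsto_nat_atTop_of_nonneg] at h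
  swap
  · intro n; positivity
  -- choose n with partial sum > -2 log ε + 1
  obtain ⟨n, hn⟩ := (h.eventually_gt_atTop (-(2 * Real.log ε))).exists
  refine ⟨(Finset.range n).filter (fun p : ℕ => p.Prime ∧ ((p : ZMod 4) = 3)), ?_, ?_⟩
  · intro p hp
    exact (Finset.mem_filter.1 hp).2
  · have h1 : ∀ p ∈ (Finset.range n).filter (fun p : ℕ => p.Prime ∧ ((p : ZMod 4) = 3)),
        (1 - ((p : ℝ) - 1) / (p : ℝ) ^ 2) ≤ Real.exp (-(1 / (2 * (p:ℝ)))) := by
      intro p hp
      have hpp := (Finset.mem_filter.1 hp).2.1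
      have hp2 : (2:ℝ) ≤ p := by exact_mod_cast hpp.two_le
      have hp0 : (0:ℝ) < p := by linarith
      have h3 := Real.add_one_le_exp (-(1 / (2 * (p:ℝ))))
      have h4 : 1 / (2 * (p:ℝ)) ≤ ((p : ℝ) - 1) / (p : ℝ) ^ 2 := by
        rw [div_le_div_iff₀ (by positivity) (by positivity)]
        nlinarith
      linarith
    have h0 : ∀ p ∈ (Finset.range n).filter (fun p : ℕ => p.Prime ∧ ((p : ZMod 4) = 3)),
        0 ≤ (1 - ((p : ℝ) - 1) / (p : ℝ) ^ 2) := by
      intro p hp
      have hpp := (Finset.mem_filter.1 hp).2.1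
      have hp2 : (2:ℝ) ≤ p := by exact_mod_cast hpp.two_le
      have hp0 : (0:ℝ) < p := by linarith
      have : ((p : ℝ) - 1) / (p : ℝ) ^ 2 ≤ 1 := by
        rw [div_le_one (by positivity)]; nlinarith
      linarith
    calc ∏ p ∈ (Finset.range n).filter (fun p : ℕ => p.Prime ∧ ((p : ZMod 4) = 3)),
          (1 - ((p : ℝ) - 1) / (p : ℝ) ^ 2)
        ≤ ∏ p ∈ (Finset.range n).filter (fun p : ℕ => p.Prime ∧ ((p : ZMod 4) = 3)),
          Real.exp (-(1 / (2 * (p:ℝ)))) := Finset.prod_le_prod h0 h1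
      _ = Real.exp (∑ p ∈ (Finset.range n).filter (fun p : ℕ => p.Prime ∧ ((p : ZMod 4) = 3)),
            (-(1 / (2 * (p:ℝ))))) := by rw [Real.exp_sum]
      _ < Real.exp (Real.log ε) := by
          apply Real.exp_lt_exp.2
          have e1 : ∑ p ∈ (Finset.range n).filter (fun p : ℕ => p.Prime ∧ ((p : ZMod 4) = 3)),
              (-(1 / (2 * (p:ℝ)))) = -(1/2) * ∑ i ∈ Finset.range n,
                (if i.Prime ∧ ((i : ZMod 4) = 3) then (1 : ℝ) / i else 0) := by
            rw [Finset.sum_filter, Finset.mul_sum]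
            apply Finset.sum_congr rfl
            intro i _
            split_ifs with hi
            · have : (0:ℝ) < i := by exact_mod_cast hi.1.pos
              field_simp
            · simp
          rw [e1]; linarith
      _ = ε := Real.exp_log hε

/-- Sums of two squares have density zero. -/
theorem density_zero (S : Set ℕ) [DecidablePred (· ∈ S)]
    (hS : ∀ r ∈ S, ∃ a b : ℕ, r = a ^ 2 + b ^ 2) (ε : ℝ) (hε : 0 < ε) :
    ∃ X₀ : ℕ, ∀ X ≥ X₀, (((Finset.range X).filter (· ∈ S)).card : ℝ) ≤ ε * X := by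
  classical
  obtain ⟨T, hT, hprod⟩ := exists_prod_small (ε / 2) (by linarith)
  set Q : ℕ := ∏ p ∈ T, p ^ 2 with hQdef
  have hQ : ∀ q ∈ T, q ^ 2 ∣ Q := fun q hq => Finset.dvd_prod_of_mem (fun p => p ^ 2) hq
  have hQ0 : 0 < Q := Finset.prod_pos (fun q hq => by have := (hT q hq).1.pos; positivity)
  have hQR : (0:ℝ) < Q := by exact_mod_cast hQ0
  have hc := cnt_prod T (fun p hp => (hT p hp).1)
  have hQcast : (∏ p ∈ T, (p : ℝ) ^ 2) = (Q : ℝ) := by rw [hQdef]; push_cast; rfl
  rw [hQcast] at hc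
  have hc2 : (cnt T Q : ℝ) ≤ Q * (ε / 2) := hc.trans (mul_le_mul_of_nonneg_left hprod.le hQR.le)
  obtain ⟨X₀, hX₀⟩ := exists_nat_gt (Q : ℝ)
  refine ⟨X₀, fun X hX => ?_⟩
  have hXR : (Q : ℝ) < X := hX₀.trans_le (by exact_mod_cast hX)
  have h1 : ((Finset.range X).filter (· ∈ S)).card ≤ cnt T X := by
    unfold cnt
    apply Finset.card_le_card
    intro r hr
    rw [Finset.mem_filter] at hr ⊢
    exact ⟨hr.1, allowed_of_sum_two_sq hT (hS r hr.2)⟩
  have h2 := cnt_le (T := T) (X := X) hQ hQ0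
  have h3 : (((Finset.range X).filter (· ∈ S)).card : ℝ) ≤ ((X / Q : ℕ) + 1 : ℝ) * cnt T Q := by
    exact_mod_cast h1.trans h2
  have h4 : ((X / Q : ℕ) : ℝ) ≤ (X : ℝ) / Q := Nat.cast_div_le
  have h5 : (0:ℝ) ≤ cnt T Q := Nat.cast_nonneg _
  calc (((Finset.range X).filter (· ∈ S)).card : ℝ) ≤ ((X / Q : ℕ) + 1 : ℝ) * cnt T Q := h3
    _ ≤ ((X:ℝ) / Q + 1) * (Q * (ε / 2)) := by
        apply mul_le_mul _ hc2 h5 (by positivity)
        linarith
    _ = (X + Q) * (ε / 2) := by field_simp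
    _ ≤ ε * X := by nlinarith

end Pool.Agent.Helper793.ABCD.SumTwoSq
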